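import Pool.Agent.WAP.StmtsM

/-!
# Row APT of squad WAP (MP_ff4683_nt): approximation by the curves ck at the place 2
-/

namespace Pool.Agent.WAP.H49

open Classical

theorem apt_two_dvd (p : GaussianInt) (hp : Prime p) (h2 : p ∣ 2) : (2 : GaussianInt) ∣ p ^ 2 := by
  have hll : (lam * lam : GaussianInt) = 2 * ⟨0, 1⟩ := by decide
  have h1 : p ∣ lam * lam := by
    rw [hll]
    exact Dvd.dvd.mul_right h2 _
  have h3 : p ∣ lam := (hp.dvd_or_dvd h1).elim id id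
  obtain ⟨c, hc⟩ := h3
  have hn : (lam : GaussianInt).norm.natAbs = 2 := by decide
  have hnm : p.norm.natAbs * c.norm.natAbs = 2 := by
    rw [← Int.natAbs_mul, ← Zsqrtd.norm_mul, ← hc, hn]
  have hpn : p.norm.natAbs ≠ 1 := by
    intro h
    exact hp.not_unit (Zsqrtd.norm_eq_one_iff.mp h)
  have hcn : c.norm.natAbs = 1 := by
    have h4 : p.norm.natAbs ∣ 2 := ⟨_, hnm.symm⟩
    rcases (Nat.dvd_prime Nat.prime_two).mp h4 with h5 | h5
    · exact absurd h5 hpn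
    · rw [h5] at hnm
      omega
  have hcu : IsUnit c := Zsqrtd.norm_eq_one_iff.mp hcn
  obtain ⟨u, hu⟩ := hcu
  have h6 : p = lam * (↑(u⁻¹) : GaussianInt) := by
    rw [hc, ← hu, mul_assoc, Units.mul_inv, mul_one]
  refine ⟨⟨0, 1⟩ * (↑(u⁻¹) : GaussianInt) ^ 2, ?_⟩
  rw [h6]
  calc (lam * (↑(u⁻¹) : GaussianInt)) ^ 2 = lam * lam * (↑(u⁻¹) : GaussianInt) ^ 2 := by ring
    _ = _ := by rw [hll]; ring

theorem apt (zlv : ZlvStmt) (dgn : DgnStmt) (apg : ApgStmt) : AptStmt := by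
  intro F _ _ p hF h2 u hu
  obtain ⟨hU, d, P, Q, j, hd, rfl, hE, hE0, hQ, hz⟩ := hu
  refine apg F p hF d hd P Q hU ?_
  intro r hr
  obtain ⟨hsub, -, -, -, -, -, hlev, -⟩ := zlv F p hF d hd
  have hp1 : ¬ p ∣ (1 : GaussianInt) := fun h => hF.prime.not_unit (isUnit_of_dvd_one h)
  obtain ⟨a, -, ha⟩ := dgn F p hF d hd (sm (2 ^ j) P) Q 1 r hE hQ hz hp1 hr
  obtain ⟨M, hM⟩ := hlev r hr
  refine ⟨a * 2 ^ j, 2 * j + M, ?_⟩
  intro k hk
  obtain ⟨c, hc⟩ := hk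
  obtain ⟨w, hw⟩ := apt_two_dvd p hF.prime h2
  have hk2 : k = (w ^ j * (p ^ M * c)) * 2 ^ j + a * 2 ^ j := by
    have h3 : k = p ^ (2 * j + M) * c + a * 2 ^ j := by rw [← hc]; ring
    rw [h3, pow_add, pow_mul, hw, mul_pow]
    ring
  have hsm : sm k P = sm (w ^ j * (p ^ M * c)) (sm (2 ^ j) P) + sm a (sm (2 ^ j) P) := by
    unfold sm
    rw [← mul_gsm, ← mul_gsm, ← add_gsm, ← hk2]
  have hL : Lev r (sm (w ^ j * (p ^ M * c)) (sm (2 ^ j) P)) :=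
    hM _ _ hE ⟨w ^ j * c, by ring⟩
  have hfin := (hsub r _ _ hL ha).2.2
  have he : sm k P - Q = sm (w ^ j * (p ^ M * c)) (sm (2 ^ j) P) - (Q - sm a (sm (2 ^ j) P)) := by
    rw [hsm]
    abel
  rw [he]
  exact hfin

end Pool.Agent.WAP.H49
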