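import Pool.Agent.WAP.StmtsC

/-!
# Row CXF of squad WAP (MP_ff4683_nt): facts about the complex numbers
-/

namespace Pool.Agent.WAP.H49

open Pool.Agent.WAP Pool.Agent.WAP.C Classical

theorem cxf_aux (n1 n2 t X : ℝ) (h1 : 0 ≤ n1) (h2 : 0 ≤ n2) (h : n2 ≤ n1) (h' : 7 / 10 * n1 ≤ n2)
    (ht0 : 0 ≤ t) (ht : (n1 * n2) ^ 2 ≤ 2 * t ^ 2) (hX0 : 0 ≤ X)
    (hX : X ^ 2 = n1 ^ 2 + n2 ^ 2 - 2 * t) : X ≤ 78 / 100 * n1 := by
  have h3 : 7 / 10 * (n1 * n2) ≤ t := by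
    apply le_of_sq_le_sq _ ht0
    nlinarith [sq_nonneg (n1 * n2)]
  apply le_of_sq_le_sq _ (by positivity)
  rw [hX]
  nlinarith [mul_nonneg (sub_nonneg.mpr h) (sub_nonneg.mpr h'), mul_nonneg h1 h2, sq_nonneg n1]
where
  le_of_sq_le_sq {a b : ℝ} (h : a ^ 2 ≤ b ^ 2) (hb : 0 ≤ b) : a ≤ b := by
    by_contra hc
    push Not at hc
    nlinarith

theorem cxf_unit (w1 w2 : ℂ) (h : ‖w2‖ ≤ ‖w1‖) (h' : 7 / 10 * ‖w1‖ ≤ ‖w2‖) :
    ∃ u : ℂ, (u = 1 ∨ u = -1 ∨ u = Complex.I ∨ u = -Complex.I) ∧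
      ‖w1 - u * w2‖ ≤ 78 / 100 * ‖w1‖ := by
  have e1 : ‖w1‖ ^ 2 = w1.re * w1.re + w1.im * w1.im := by
    rw [Complex.sq_norm, Complex.normSq_apply]
  have e2 : ‖w2‖ ^ 2 = w2.re * w2.re + w2.im * w2.im := by
    rw [Complex.sq_norm, Complex.normSq_apply]
  have e3 : (‖w1‖ * ‖w2‖) ^ 2 = (w1.re * w2.re + w1.im * w2.im) ^ 2 +
      (w1.im * w2.re - w1.re * w2.im) ^ 2 := by
    rw [mul_pow, e1, e2]; ring
  rcases le_total ((w1.im * w2.re - w1.re * w2.im) ^ 2) ((w1.re * w2.re + w1.im * w2.im) ^ 2)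
    with hab | hab
  · rcases le_total 0 (w1.re * w2.re + w1.im * w2.im) with ha | ha
    · refine ⟨1, Or.inl rfl, ?_⟩
      refine cxf_aux ‖w1‖ ‖w2‖ (w1.re * w2.re + w1.im * w2.im) _ (norm_nonneg _) (norm_nonneg _) h h'
        ha (by rw [e3]; linarith) (norm_nonneg _) ?_
      rw [Complex.sq_norm, Complex.normSq_apply, e1, e2]
      simp only [one_mul, Complex.sub_re, Complex.sub_im]
      ring
    · refine ⟨-1, Or.inr (Or.inl rfl), ?_⟩
      refine cxf_aux ‖w1‖ ‖w2‖ (-(w1.re * w2.re + w1.im * w2.im)) _ (norm_nonneg _) (norm_nonneg _) h h'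
        (by linarith) (by rw [e3, neg_sq]; linarith) (norm_nonneg _) ?_
      rw [Complex.sq_norm, Complex.normSq_apply, e1, e2]
      simp only [neg_mul, one_mul, Complex.sub_re, Complex.sub_im, Complex.neg_re, Complex.neg_im]
      ring
  · rcases le_total 0 (w1.im * w2.re - w1.re * w2.im) with ha | ha
    · refine ⟨Complex.I, Or.inr (Or.inr (Or.inl rfl)), ?_⟩
      refine cxf_aux ‖w1‖ ‖w2‖ (w1.im * w2.re - w1.re * w2.im) _ (norm_nonneg _) (norm_nonneg _) h h'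
        ha (by rw [e3]; linarith) (norm_nonneg _) ?_
      rw [Complex.sq_norm, Complex.normSq_apply, e1, e2]
      simp only [Complex.sub_re, Complex.sub_im, Complex.mul_re, Complex.mul_im, Complex.I_re,
        Complex.I_im]
      ring
    · refine ⟨-Complex.I, Or.inr (Or.inr (Or.inr rfl)), ?_⟩
      refine cxf_aux ‖w1‖ ‖w2‖ (-(w1.im * w2.re - w1.re * w2.im)) _ (norm_nonneg _) (norm_nonneg _) h h'
        (by linarith) (by rw [e3, neg_sq]; linarith) (norm_nonneg _) ?_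
      rw [Complex.sq_norm, Complex.normSq_apply, e1, e2]
      simp only [Complex.sub_re, Complex.sub_im, Complex.mul_re, Complex.mul_im, Complex.I_re,
        Complex.I_im, neg_mul, Complex.neg_re, Complex.neg_im]
      ring

theorem cxf_rep (φ : GaussianInt →+* ℂ) (a : GaussianInt) :
    φ a = (a.re : ℂ) + (a.im : ℂ) * φ ⟨0, 1⟩ := by
  have h : a = (a.re : GaussianInt) + (a.im : GaussianInt) * ⟨0, 1⟩ := by
    ext <;> simp
  conv_lhs => rw [h]
  rw [map_add, map_mul, map_intCast, map_intCast]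

theorem cxf_i (φ : GaussianInt →+* ℂ) : φ ⟨0, 1⟩ = Complex.I ∨ φ ⟨0, 1⟩ = -Complex.I := by
  have h : φ ⟨0, 1⟩ ^ 2 = -1 := by
    rw [← map_pow]
    have : (⟨0, 1⟩ : GaussianInt) ^ 2 = -1 := by decide
    rw [this, map_neg, map_one]
  have h2 : (φ ⟨0, 1⟩ - Complex.I) * (φ ⟨0, 1⟩ + Complex.I) = 0 := by
    have h3 : Complex.I ^ 2 = -1 := Complex.I_sq
    linear_combination h - h3
  rcases mul_eq_zero.mp h2 with h3 | h3
  · left; linear_combination h3
  · right; linear_combination h3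

theorem cxf_norm (φ : GaussianInt →+* ℂ) (a : GaussianInt) : ‖φ a‖ ^ 2 = (a.norm : ℝ) := by
  rw [cxf_rep φ a, Complex.sq_norm, Complex.normSq_apply]
  have hn : (a.norm : ℝ) = (a.re : ℝ) * a.re + (a.im : ℝ) * a.im := by
    rw [Zsqrtd.norm_def]
    push_cast
    ring
  rw [hn]
  rcases cxf_i φ with h | h
  · rw [h]
    simp
  · rw [h]
    simp

theorem cxf : CxfStmt := by
  intro F _ _ hF
  obtain ⟨σ, hσ⟩ := hF
  have hsub : ∀ x y : F, ‖x - y‖ = ‖σ x - σ y‖ := by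
    intro x y
    rw [← map_sub, hσ]
  refine ⟨⟨?_, ?_⟩, ?_, ?_, ?_, ?_⟩
  · intro n
    rw [← hσ, map_natCast]
    simp
  · intro a
    rw [← hσ]
    exact cxf_norm ((σ : F →+* ℂ).comp (algebraMap GaussianInt F)) a
  · intro b c
    obtain ⟨s, hs⟩ := IsAlgClosed.exists_pow_nat_eq (σ b ^ 2 - 4 * σ c) (n := 2) (by norm_num)
    refine ⟨σ.symm ((-σ b + s) / 2), ?_⟩
    apply σ.injective
    rw [map_add, map_add, map_pow, map_mul, map_zero, RingEquiv.apply_symm_apply]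
    linear_combination (1 / 4 : ℂ) * hs
  · intro S x0 ε hS hε
    have hd : Dense (σ '' S)ᶜ := Set.Countable.dense_compl ℝ (hS.image σ)
    obtain ⟨y, hy, hy2⟩ := hd.exists_dist_lt (σ x0) hε
    refine ⟨σ.symm y, ?_, ?_⟩
    · intro h
      apply hy
      exact ⟨σ.symm y, h, σ.apply_symm_apply y⟩
    · rw [hsub, σ.apply_symm_apply, ← dist_eq_norm, dist_comm]
      exact hy2
  · intro S B η hS hB hη
    have hK := (isCompact_closedBall (0 : ℂ × ℂ) B).totallyBounded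
    obtain ⟨t, ht, hcov⟩ := Metric.totallyBounded_iff.mp hK (η / 2) (by linarith)
    have hex : ∀ p ∈ S, ∃ y ∈ t, dist ((σ p.1, σ p.2) : ℂ × ℂ) y < η / 2 := by
      intro p hp
      have hin : ((σ p.1, σ p.2) : ℂ × ℂ) ∈ Metric.closedBall (0 : ℂ × ℂ) B := by
        rw [mem_closedBall_zero_iff, Prod.norm_mk, hσ, hσ]
        exact max_le (hB p hp).1 (hB p hp).2
      have := hcov hin
      simp only [Set.mem_iUnion, Metric.mem_ball, exists_prop] at this
      exact this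
    choose! f hf1 hf2 using hex
    obtain ⟨p, hp, q, hq, hpq, hfe⟩ := hS.exists_ne_map_eq_of_mapsTo (fun p hp => hf1 p hp) ht
    refine ⟨p, hp, q, hq, hpq, ?_⟩
    have h1 := hf2 p hp
    have h2 := hf2 q hq
    rw [← hfe] at h2
    have h3 : dist ((σ p.1, σ p.2) : ℂ × ℂ) (σ q.1, σ q.2) < η := by
      have := dist_triangle_right ((σ p.1, σ p.2) : ℂ × ℂ) (σ q.1, σ q.2) (f p)
      linarith
    rw [Prod.dist_eq] at h3
    have h4 := lt_of_le_of_lt (le_max_left _ _) h3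
    have h5 := lt_of_le_of_lt (le_max_right _ _) h3
    rw [hsub, hsub]
    simp only [dist_eq_norm] at h4 h5
    exact ⟨h4, h5⟩
  · intro z1 z2 _ h21 h12
    obtain ⟨u, hu, hle⟩ := cxf_unit (σ z1) (σ z2) (by rw [hσ, hσ]; exact h21)
      (by rw [hσ, hσ]; exact h12)
    have key : ∀ c : GaussianInt, σ (algebraMap GaussianInt F c) = u →
        ‖z1 - algebraMap GaussianInt F c * z2‖ ≤ 78 / 100 * ‖z1‖ := by
      intro c hc
      rw [hsub, map_mul, hc, ← hσ z1]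
      exact hle
    have hm1 : σ (algebraMap GaussianInt F (-1)) = -1 := by
      rw [map_neg, map_one, map_neg, map_one]
    have hmi : σ (algebraMap GaussianInt F ⟨0, -1⟩) = -σ (algebraMap GaussianInt F ⟨0, 1⟩) := by
      have : (⟨0, -1⟩ : GaussianInt) = -⟨0, 1⟩ := by decide
      rw [this, map_neg, map_neg]
    have hi := cxf_i ((σ : F →+* ℂ).comp (algebraMap GaussianInt F))
    have hi' : σ (algebraMap GaussianInt F ⟨0, 1⟩) = Complex.I ∨
        σ (algebraMap GaussianInt F ⟨0, 1⟩) = -Complex.I := hi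
    rcases hu with hu | hu | hu | hu
    · exact ⟨1, Or.inl rfl, key 1 (by rw [map_one, map_one, hu])⟩
    · exact ⟨-1, Or.inr (Or.inl rfl), key _ (by rw [hm1, hu])⟩
    · rcases hi' with h | h
      · exact ⟨⟨0, 1⟩, Or.inr (Or.inr (Or.inl rfl)), key _ (by rw [h, hu])⟩
      · exact ⟨⟨0, -1⟩, Or.inr (Or.inr (Or.inr rfl)), key _ (by rw [hmi, h, hu, neg_neg])⟩
    · rcases hi' with h | h
      · exact ⟨⟨0, -1⟩, Or.inr (Or.inr (Or.inr rfl)), key _ (by rw [hmi, h, hu])⟩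
      · exact ⟨⟨0, 1⟩, Or.inr (Or.inr (Or.inl rfl)), key _ (by rw [h, hu])⟩

end Pool.Agent.WAP.H49
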